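import Pool.Agent.Lib.MP_892329_co.Spec

/-!
# The closeness matrix of a point set of diameter at most `1`
-/

set_option autoImplicit false
set_option linter.unusedSectionVars false

namespace Pool.Agent.Lib.MP_892329_co

open Finset Matrix

variable {E : Type*} [NormedAddCommGroup E] [InnerProductSpace ℝ E]

/-- The closeness matrix of a family of points: `0` on the diagonal, `1 - |p i - p j| ^ 2` off
the diagonal. -/
def cl {S : Type*} [DecidableEq S] (p : S → E) : Matrix S S ℝ :=
  Matrix.of fun i j => if i = j then 0 else 1 - ‖p i - p j‖ ^ 2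

/-- The sum over ordered triples of the products of the three closeness values. -/
noncomputable def tri {S : Type*} [Fintype S] [DecidableEq S] (p : S → E) : ℝ :=
  ∑ i, ∑ j, ∑ k, cl p i j * cl p j k * cl p k i

theorem cl_apply {S : Type*} [DecidableEq S] (p : S → E) (i j : S) :
    cl p i j = if i = j then 0 else 1 - ‖p i - p j‖ ^ 2 := rfl

theorem cl_self {S : Type*} [DecidableEq S] (p : S → E) (i : S) : cl p i i = 0 := by
  simp [cl_apply]

theorem cl_symm {S : Type*} [DecidableEq S] (p : S → E) (i j : S) : cl p i j = cl p j i := by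
  simp only [cl_apply, norm_sub_rev (p i) (p j), eq_comm (a := i) (b := j)]

theorem cl_nonneg {S : Type*} [DecidableEq S] (p : S → E) (hp : ∀ i j, ‖p i - p j‖ ≤ 1) (i j : S) :
    0 ≤ cl p i j := by
  rw [cl_apply]
  split_ifs
  · exact le_rfl
  · nlinarith [hp i j, norm_nonneg (p i - p j)]

theorem cl_eq {S : Type*} [DecidableEq S] (p : S → E) (i j : S) :
    cl p i j = 1 - ‖p i - p j‖ ^ 2 - if i = j then 1 else 0 := by
  rw [cl_apply]
  split_ifs with h
  · rw [h]; simp
  · ring

theorem cl_comp {S R : Type*} [DecidableEq S] [DecidableEq R] (p : S → E) (f : R → S)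
    (hf : Function.Injective f) (i j : R) : cl (fun r => p (f r)) i j = cl p (f i) (f j) := by
  simp only [cl_apply, hf.eq_iff]

theorem norm_sum_sq {S : Type*} [Fintype S] (p : S → E) (z : S → ℝ) :
    ‖∑ i, z i • p i‖ ^ 2 = ∑ i, ∑ j, z i * z j * inner ℝ (p i) (p j) := by
  rw [← real_inner_self_eq_norm_sq, sum_inner]
  refine Finset.sum_congr rfl fun i _ => ?_
  rw [inner_sum]
  refine Finset.sum_congr rfl fun j _ => ?_
  rw [real_inner_smul_left, real_inner_smul_right]
  ring

/-- the quadratic form of `1 + cl p` on vectors of sum zero -/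
theorem cl_form {S : Type*} [Fintype S] [DecidableEq S] (p : S → E) (z : S → ℝ)
    (hz : ∑ i, z i = 0) :
    ∑ i, z i ^ 2 + z ⬝ᵥ cl p *ᵥ z = 2 * ‖∑ i, z i • p i‖ ^ 2 := by
  have h1 : z ⬝ᵥ cl p *ᵥ z = ∑ i, ∑ j, z i * z j * cl p i j := by
    simp only [dotProduct, Matrix.mulVec, Finset.mul_sum]
    refine Finset.sum_congr rfl fun i _ => Finset.sum_congr rfl fun j _ => ?_
    ring
  have h2 : ∑ i, ∑ j, z i * z j * cl p i j = ∑ i, ∑ j, (z i * z j - z i * ‖p i‖ ^ 2 * z j -
      z i * (z j * ‖p j‖ ^ 2) + 2 * (z i * z j * inner ℝ (p i) (p j)) -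
        if i = j then z i * z j else 0) := by
    refine Finset.sum_congr rfl fun i _ => Finset.sum_congr rfl fun j _ => ?_
    rw [cl_eq, norm_sub_sq_real]
    split_ifs <;> ring
  rw [h1, h2]
  simp only [Finset.sum_sub_distrib, Finset.sum_add_distrib, ← Finset.mul_sum, hz, mul_zero,
    ← Finset.sum_mul, zero_mul, Finset.sum_ite_eq, Finset.mem_univ, if_true, Finset.sum_const_zero]
  rw [norm_sum_sq]
  simp only [sub_self, zero_add, Finset.mul_sum]
  have h3 : ∑ i, z i * z i = ∑ i, z i ^ 2 := Finset.sum_congr rfl fun i _ => (sq (z i)).symm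
  rw [h3]
  ring

/-- **Dimension lemma.** -/
theorem dim_lemma [FiniteDimensional ℝ E] {S Q : Type*} [Fintype S] [DecidableEq S] [Fintype Q]
    [DecidableEq Q] (p : S → E) (κ : S → Q) (hκ : ∀ i j, κ i ≠ κ j → cl p i j = 0)
    (a : (c : Q) → {i // κ i = c} → ℝ) (U : (c : Q) → Matrix {i // κ i = c} {i // κ i = c} ℝ)
    (hU : ∀ c, U c * (U c)ᵀ = 1)
    (hX : ∀ c, cl (fun i : {i // κ i = c} => p i) = U c * diagonal (a c) * (U c)ᵀ) :
    Fintype.card S ≤ Module.finrank ℝ E + 1 +
      ∑ c, (univ.filter fun j : {i // κ i = c} => a c j ≤ -1).card := by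
  by_contra hcon
  push Not at hcon
  obtain ⟨L, hL⟩ : ∃ L : (S → ℝ) →ₗ[ℝ] (ℝ × E) ×
      ((Σ c : Q, {j : {i // κ i = c} // a c j ≤ -1}) → ℝ), L =
    LinearMap.prod (LinearMap.prod (∑ i, LinearMap.proj i)
      (∑ i, (LinearMap.proj i : (S → ℝ) →ₗ[ℝ] ℝ).smulRight (p i)))
      (LinearMap.pi fun q => (LinearMap.proj q.2.1) ∘ₗ ((U q.1)ᵀ.mulVecLin) ∘ₗ
        (LinearMap.funLeft ℝ ℝ (Subtype.val : {i // κ i = q.1} → S))) := ⟨_, rfl⟩
  have hrank : Module.finrank ℝ ((ℝ × E) ×
      ((Σ c : Q, {j : {i // κ i = c} // a c j ≤ -1}) → ℝ)) < Module.finrank ℝ (S → ℝ) := by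
    rw [Module.finrank_prod, Module.finrank_prod, Module.finrank_self, Module.finrank_fintype_fun_eq_card,
      Module.finrank_fintype_fun_eq_card, Fintype.card_sigma]
    simp only [Fintype.card_subtype]
    omega
  obtain ⟨z, hz, hz0⟩ := Submodule.exists_mem_ne_zero_of_ne_bot
    (LinearMap.ker_ne_bot_of_finrank_lt hrank (f := L))
  rw [LinearMap.mem_ker, hL] at hz
  have hz1 : ∑ i, z i = 0 := by
    have := congrArg (fun q => q.1.1) hz
    simpa using this
  have hz2 : ∑ i, z i • p i = 0 := by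
    have := congrArg (fun q => q.1.2) hz
    simpa using this
  have hz3 := congrArg (fun q => q.2) hz
  have hw : ∀ (c : Q) (j : {i // κ i = c}), a c j ≤ -1 →
      ((U c)ᵀ *ᵥ fun i : {i // κ i = c} => z i) j = 0 := by
    intro c j hj
    have := congrFun hz3 ⟨c, ⟨j, hj⟩⟩
    exact this
  have hform := cl_form p z hz1
  rw [hz2, norm_zero] at hform
  have e1 : ∑ i, z i ^ 2 = ∑ c, ∑ j, ((U c)ᵀ *ᵥ fun i : {i // κ i = c} => z i) j ^ 2 := by
    rw [← Fintype.sum_fiberwise κ]
    refine Finset.sum_congr rfl fun c _ => ?_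
    rw [sum_sq_coord (hU c)]
  have e2 : z ⬝ᵥ cl p *ᵥ z =
      ∑ c, ∑ j, a c j * ((U c)ᵀ *ᵥ fun i : {i // κ i = c} => z i) j ^ 2 := by
    simp only [dotProduct, Matrix.mulVec]
    rw [← Fintype.sum_fiberwise κ]
    refine Finset.sum_congr rfl fun c _ => ?_
    have h1 := form_coord (hX c) (fun i : {i // κ i = c} => z i)
    simp only [dotProduct, Matrix.mulVec] at h1
    rw [← h1]
    refine Finset.sum_congr rfl fun i _ => ?_
    congr 1
    rw [← Fintype.sum_fiberwise κ, Finset.sum_eq_single c]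
    · refine Finset.sum_congr rfl fun j _ => ?_
      rw [cl_comp p (fun i : {i // κ i = c} => i.1) Subtype.val_injective]
    · intro c' _ hc'
      apply Finset.sum_eq_zero
      intro j _
      rw [hκ i.1 j.1 (by rw [i.2, j.2]; exact Ne.symm hc'), zero_mul]
    · intro h
      exact absurd (Finset.mem_univ c) h
  have e3 : ∑ c, ∑ j, (1 + a c j) * ((U c)ᵀ *ᵥ fun i : {i // κ i = c} => z i) j ^ 2 = 0 := by
    simp only [add_mul, one_mul, Finset.sum_add_distrib]
    rw [← e1, ← e2, hform]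
    norm_num
  have e4 : ∀ (c : Q) (j : {i // κ i = c}),
      0 ≤ (1 + a c j) * ((U c)ᵀ *ᵥ fun i : {i // κ i = c} => z i) j ^ 2 := by
    intro c j
    by_cases h : a c j ≤ -1
    · rw [hw c j h]; norm_num
    · push Not at h
      exact mul_nonneg (by linarith) (sq_nonneg _)
  have e5 : ∀ (c : Q) (j : {i // κ i = c}),
      ((U c)ᵀ *ᵥ fun i : {i // κ i = c} => z i) j = 0 := by
    intro c j
    by_cases h : a c j ≤ -1
    · exact hw c j h
    · push Not at h
      have h1 := (Finset.sum_eq_zero_iff_of_nonneg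
        (fun c _ => Finset.sum_nonneg fun j _ => e4 c j)).1 e3 c (Finset.mem_univ c)
      have h2 := (Finset.sum_eq_zero_iff_of_nonneg (fun j _ => e4 c j)).1 h1 j (Finset.mem_univ j)
      have h3 : 1 + a c j ≠ 0 := by linarith
      have h4 := (mul_eq_zero.1 h2).resolve_left h3
      exact pow_eq_zero_iff (two_ne_zero) |>.1 h4
  apply hz0
  have h6 : ∑ i, z i ^ 2 = 0 := by
    rw [e1]
    apply Finset.sum_eq_zero
    intro c _
    apply Finset.sum_eq_zero
    intro j _
    rw [e5 c j]; norm_num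
  funext i
  have h7 := (Finset.sum_eq_zero_iff_of_nonneg (fun i _ => sq_nonneg (z i))).1 h6 i
    (Finset.mem_univ i)
  exact pow_eq_zero_iff (two_ne_zero) |>.1 h7

/-- per-class bound with parity -/
theorem class_bound (n m : ℕ) (T : ℝ) (hT : 0 ≤ T) (h : 2 * (m : ℝ) ≤ n + T / 2) :
    2 * (m : ℝ) + (if Odd n then 1 else 0) ≤ n + T := by
  split_ifs with ho
  · obtain ⟨k, hk⟩ := ho
    by_cases hm : m ≤ k
    · have h1 : (m : ℝ) ≤ k := by exact_mod_cast hm
      rw [hk]; push_cast
      linarith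
    · push Not at hm
      have h1 : (k : ℝ) + 1 ≤ m := by exact_mod_cast hm
      rw [hk] at h ⊢; push_cast at h ⊢
      linarith
  · linarith

theorem tri_nonneg {S : Type*} [Fintype S] [DecidableEq S] (p : S → E)
    (hp : ∀ i j, ‖p i - p j‖ ≤ 1) : 0 ≤ tri p := by
  refine Finset.sum_nonneg fun i _ => Finset.sum_nonneg fun j _ => Finset.sum_nonneg fun k _ => ?_
  exact mul_nonneg (mul_nonneg (cl_nonneg p hp i j) (cl_nonneg p hp j k)) (cl_nonneg p hp k i)

theorem sum_inj_le {S R : Type*} [Fintype S] [Fintype R] (f : R → S) (hf : Function.Injective f)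
    (g : S → ℝ) (hg : ∀ s, 0 ≤ g s) : ∑ r, g (f r) ≤ ∑ s, g s := by
  classical
  rw [← Finset.sum_image (f := g) (g := f) (s := univ) (fun a _ b _ h => hf h)]
  exact Finset.sum_le_sum_of_subset_of_nonneg (Finset.subset_univ _) fun s _ _ => hg s

theorem tri_comp_le {S R : Type*} [Fintype S] [DecidableEq S] [Fintype R] [DecidableEq R]
    (p : S → E) (hp : ∀ i j, ‖p i - p j‖ ≤ 1) (f : R → S) (hf : Function.Injective f) :
    tri (fun r => p (f r)) ≤ tri p := by
  unfold tri
  simp only [cl_comp p f hf]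
  have h0 : ∀ i j k, 0 ≤ cl p i j * cl p j k * cl p k i := fun i j k =>
    mul_nonneg (mul_nonneg (cl_nonneg p hp i j) (cl_nonneg p hp j k)) (cl_nonneg p hp k i)
  refine le_trans ?_ (sum_inj_le f hf
    (fun i => ∑ j, ∑ k, cl p i j * cl p j k * cl p k i)
    (fun i => Finset.sum_nonneg fun j _ => Finset.sum_nonneg fun k _ => h0 i j k))
  refine Finset.sum_le_sum fun i _ => ?_
  refine le_trans ?_ (sum_inj_le f hf
    (fun j => ∑ k, cl p (f i) j * cl p j k * cl p k (f i))
    (fun j => Finset.sum_nonneg fun k _ => h0 _ j k))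
  refine Finset.sum_le_sum fun j _ => ?_
  exact sum_inj_le f hf (fun k => cl p (f i) (f j) * cl p (f j) k * cl p k (f i))
    (fun k => h0 _ _ k)

/-- the classes contribute at most the total to the triple sum -/
theorem tri_classes_le {S Q : Type*} [Fintype S] [DecidableEq S] [Fintype Q] [DecidableEq Q]
    (p : S → E) (hp : ∀ i j, ‖p i - p j‖ ≤ 1) (κ : S → Q) :
    ∑ c, tri (fun i : {i // κ i = c} => p i) ≤ tri p := by
  have h0 : ∀ i j k, 0 ≤ cl p i j * cl p j k * cl p k i := fun i j k =>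
    mul_nonneg (mul_nonneg (cl_nonneg p hp i j) (cl_nonneg p hp j k)) (cl_nonneg p hp k i)
  conv_rhs => rw [tri, ← Fintype.sum_fiberwise κ]
  refine Finset.sum_le_sum fun c _ => ?_
  unfold tri
  refine Finset.sum_le_sum fun i _ => ?_
  have hinj : Function.Injective (fun i : {i // κ i = c} => i.1) := Subtype.val_injective
  simp only [cl_comp p (fun i : {i // κ i = c} => i.1) hinj]
  refine le_trans ?_ (sum_inj_le (fun i : {i // κ i = c} => i.1) hinj
    (fun j => ∑ k, cl p i.1 j * cl p j k * cl p k i.1)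
    (fun j => Finset.sum_nonneg fun k _ => h0 _ j k))
  refine Finset.sum_le_sum fun j _ => ?_
  exact sum_inj_le (fun i : {i // κ i = c} => i.1) hinj
    (fun k => cl p i.1 j.1 * cl p j.1 k * cl p k i.1) (fun k => h0 _ _ k)

/-- **Main counting lemma.** -/
theorem count_lemma [FiniteDimensional ℝ E] {S Q : Type*} [Fintype S] [DecidableEq S] [Fintype Q]
    [DecidableEq Q] (p : S → E) (hp : ∀ i j, ‖p i - p j‖ ≤ 1) (κ : S → Q)
    (hκ : ∀ i j, κ i ≠ κ j → ‖p i - p j‖ = 1) :
    (Fintype.card S : ℝ) + ((univ.filter fun c => Odd (Fintype.card {i // κ i = c})).card : ℝ) ≤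
      2 * (Module.finrank ℝ E + 1) + tri p := by
  have hκ' : ∀ i j, κ i ≠ κ j → cl p i j = 0 := by
    intro i j h
    rw [cl_apply, if_neg (by rintro rfl; exact h rfl), hκ i j h]
    norm_num
  have hd : ∀ c : Q, ∃ (a : {i // κ i = c} → ℝ) (U : Matrix {i // κ i = c} {i // κ i = c} ℝ),
      U * Uᵀ = 1 ∧ Uᵀ * U = 1 ∧ cl (fun i : {i // κ i = c} => p i) = U * diagonal a * Uᵀ := by
    intro c
    apply exists_diag
    ext i j
    rw [Matrix.conjTranspose_apply, star_trivial, cl_symm]
  choose a U hU hU' hX using hd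
  have hdim := dim_lemma p κ hκ' a U hU hX
  have hclass : ∀ c : Q, 2 * ((univ.filter fun j : {i // κ i = c} => a c j ≤ -1).card : ℝ) +
      (if Odd (Fintype.card {i // κ i = c}) then 1 else 0) ≤
      (Fintype.card {i // κ i = c} : ℝ) + tri (fun i : {i // κ i = c} => p i) := by
    intro c
    have hp' : ∀ i j : {i // κ i = c}, ‖p i - p j‖ ≤ 1 := fun i j => hp i j
    apply class_bound _ _ _ (tri_nonneg _ hp')
    apply spec _ (U c) (a c) (hU c) (hU' c) (hX c) (cl_nonneg _ hp') (cl_self _)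
    intro z hz
    rw [cl_form _ z hz]
    positivity
  have hsum := Finset.sum_le_sum fun c (_ : c ∈ (univ : Finset Q)) => hclass c
  rw [Finset.sum_add_distrib, Finset.sum_add_distrib, ← Finset.mul_sum, Finset.sum_boole,
    ← Nat.cast_sum, ← Nat.cast_sum] at hsum
  have hcard : ∑ c, Fintype.card {i // κ i = c} = Fintype.card S := by
    have := Fintype.sum_fiberwise κ (fun _ => 1)
    simpa using this
  rw [hcard] at hsum
  have htri := tri_classes_le p hp κ
  have hdim' : (Fintype.card S : ℝ) ≤ Module.finrank ℝ E + 1 +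
      ((∑ c, (univ.filter fun j : {i // κ i = c} => a c j ≤ -1).card : ℕ) : ℝ) := by
    exact_mod_cast hdim
  linarith

end Pool.Agent.Lib.MP_892329_co
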