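import Pool.Agent.Lib.MP_892329_co.Geo

/-!
# The matching and the colouring
-/

set_option autoImplicit false
set_option linter.unusedSectionVars false

namespace Pool.Agent.Lib.MP_892329_co

open Finset

variable {E : Type*} [NormedAddCommGroup E] [InnerProductSpace ℝ E]

/-- The graph of the pairs at distance different from `1`, joined with a complete graph on `t`
new vertices. -/
def joined {V : Type*} (p : V → E) (t : ℕ) : SimpleGraph (V ⊕ Fin t) where
  Adj x y := x ≠ y ∧ ∀ v w, x = Sum.inl v → y = Sum.inl w → ‖p v - p w‖ ≠ 1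
  symm := ⟨fun x y h => ⟨h.1.symm, fun v w hv hw => by
    rw [norm_sub_rev]; exact h.2 w v hw hv⟩⟩
  loopless := ⟨fun x h => h.1 rfl⟩

theorem joined_adj {V : Type*} (p : V → E) (t : ℕ) (x y : V ⊕ Fin t) :
    (joined p t).Adj x y ↔ x ≠ y ∧ ∀ v w, x = Sum.inl v → y = Sum.inl w → ‖p v - p w‖ ≠ 1 :=
  Iff.rfl

theorem no_violator [FiniteDimensional ℝ E] {V : Type*} [Fintype V] [DecidableEq V] (p : V → E)
    (hp : ∀ i j, ‖p i - p j‖ ≤ 1) (B t : ℕ) (hcard : Fintype.card V + t = 2 * B)
    (hB : 2 * ((Module.finrank ℝ E : ℝ) + 1) + tri p < 2 * (B : ℝ) + 2)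
    (u : Set (V ⊕ Fin t)) : ¬ (joined p t).IsTutteViolator u := by
  classical
  intro hv
  unfold SimpleGraph.IsTutteViolator at hv
  obtain ⟨S, hS⟩ : ∃ S : Set (V ⊕ Fin t), S =
    ((⊤ : (joined p t).Subgraph).deleteVerts u).verts := ⟨_, rfl⟩
  have hmemS : ∀ x, x ∈ ((⊤ : (joined p t).Subgraph).deleteVerts u).verts ↔ x ∉ u := by
    intro x
    rw [SimpleGraph.Subgraph.deleteVerts_verts]
    simp
  have hSu : ((⊤ : (joined p t).Subgraph).deleteVerts u).verts = uᶜ := by
    ext x; rw [hmemS]; rfl
  have hcardS : Nat.card ((⊤ : (joined p t).Subgraph).deleteVerts u).verts + u.ncard = 2 * B := by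
    rw [Nat.card_coe_set_eq, hSu, add_comm, Set.ncard_add_ncard_compl, Nat.card_eq_fintype_card,
      Fintype.card_sum, Fintype.card_fin]
    exact hcard
  have hodd := SimpleGraph.odd_ncard_oddComponents
    (G := ((⊤ : (joined p t).Subgraph).deleteVerts u).coe)
  obtain ⟨G', hG'⟩ : ∃ G', G' = ((⊤ : (joined p t).Subgraph).deleteVerts u).coe := ⟨_, rfl⟩
  rw [← hG'] at hv hodd
  have hadj : ∀ x y : ((⊤ : (joined p t).Subgraph).deleteVerts u).verts,
      G'.Adj x y ↔ (joined p t).Adj x.1 y.1 := by
    intro x y
    rw [hG', SimpleGraph.Subgraph.coe_adj, SimpleGraph.Subgraph.deleteVerts_adj]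
    simp only [SimpleGraph.Subgraph.verts_top, Set.mem_univ, true_and, SimpleGraph.Subgraph.top_adj]
    exact ⟨fun h => h.2.2, fun h => ⟨(hmemS _).1 x.2, (hmemS _).1 y.2, h⟩⟩
  -- parity of `odd + |u|`
  have hpar : Even (G'.oddComponents.ncard + u.ncard) := by
    rw [← Nat.not_odd_iff_even]
    intro ho
    have h1 : Even (Nat.card ((⊤ : (joined p t).Subgraph).deleteVerts u).verts + u.ncard) :=
      hcardS ▸ even_two_mul B
    rw [Nat.even_add, ← Nat.not_odd_iff_even, ← Nat.not_odd_iff_even, ← hodd] at h1
    rw [Nat.odd_add, ← Nat.not_odd_iff_even] at ho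
    tauto
  by_cases hall : ∀ s : Fin t, Sum.inr s ∈ u
  · -- the remaining vertices are vertices of `V`
    have hf : ∀ x : ((⊤ : (joined p t).Subgraph).deleteVerts u).verts, ∃ v : V, x.1 = Sum.inl v := by
      rintro ⟨x, hx⟩
      rcases x with v | s
      · exact ⟨v, rfl⟩
      · exact absurd (hall s) ((hmemS _).1 hx)
    choose f hf using hf
    have hfinj : Function.Injective f := by
      intro x y hxy
      apply Subtype.ext
      rw [hf x, hf y, hxy]
    have hmain := count_lemma (fun x => p (f x)) (fun i j => hp (f i) (f j))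
      G'.connectedComponentMk (by
        intro i j hij
        by_contra hne
        apply hij
        rw [SimpleGraph.ConnectedComponent.eq]
        by_cases hij' : i = j
        · rw [hij']
        · apply SimpleGraph.Adj.reachable
          rw [hadj, joined_adj]
          refine ⟨fun h => hij' (Subtype.ext h), ?_⟩
          intro v w hv' hw'
          have e1 : f i = v := Sum.inl_injective ((hf i).symm.trans hv')
          have e2 : f j = w := Sum.inl_injective ((hf j).symm.trans hw')
          rw [← e1, ← e2]
          exact hne)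
    have htri := tri_comp_le p hp f hfinj
    have hoddcard : ((univ.filter fun c : G'.ConnectedComponent =>
        Odd (Fintype.card {i // G'.connectedComponentMk i = c})).card) =
        G'.oddComponents.ncard := by
      rw [← Set.ncard_coe_finset]
      congr 1
      ext c
      simp only [Finset.coe_filter, Finset.mem_univ, true_and, Set.mem_ofPred_eq]
      have : Fintype.card {i // G'.connectedComponentMk i = c} = c.supp.ncard := by
        rw [← Nat.card_coe_set_eq, ← Nat.card_eq_fintype_card]
        rfl
      rw [this]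
    rw [hoddcard] at hmain
    have hc : (Fintype.card ((⊤ : (joined p t).Subgraph).deleteVerts u).verts : ℝ) + u.ncard =
        2 * B := by
      rw [← Nat.card_eq_fintype_card]
      exact_mod_cast hcardS
    have h2 : u.ncard + 2 ≤ G'.oddComponents.ncard := by
      obtain ⟨m, hm⟩ := hpar
      omega
    have h3 : (u.ncard : ℝ) + 2 ≤ G'.oddComponents.ncard := by exact_mod_cast h2
    linarith
  · -- some new vertex is adjacent to everything
    push Not at hall
    obtain ⟨s, hs⟩ := hall
    have hs' : (Sum.inr s : V ⊕ Fin t) ∈ ((⊤ : (joined p t).Subgraph).deleteVerts u).verts :=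
      (hmemS _).2 hs
    have hreach : ∀ x, G'.Reachable x ⟨Sum.inr s, hs'⟩ := by
      intro x
      by_cases hx : x = ⟨Sum.inr s, hs'⟩
      · rw [hx]
      · apply SimpleGraph.Adj.reachable
        rw [hadj, joined_adj]
        refine ⟨fun h => hx (Subtype.ext h), ?_⟩
        intro v w _ hw
        exact absurd hw (by simp)
    have hpre : G'.Preconnected := fun x y => (hreach x).trans (hreach y).symm
    have hsub := hpre.subsingleton_connectedComponent
    have h1 : G'.oddComponents.ncard ≤ 1 := by
      rw [Set.ncard_le_one]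
      intro a _ b _
      exact Subsingleton.elim a b
    obtain ⟨m, hm⟩ := hpar
    omega

/-- the colouring obtained from a perfect matching -/
theorem colour [FiniteDimensional ℝ E] {V : Type*} [Fintype V] [DecidableEq V] (p : V → E)
    (hp : ∀ i j, ‖p i - p j‖ ≤ 1) (B t : ℕ) (hcard : Fintype.card V + t = 2 * B)
    (hB : 2 * ((Module.finrank ℝ E : ℝ) + 1) + tri p < 2 * (B : ℝ) + 2)
    (G : SimpleGraph V) (hG : ∀ x y, G.Adj x y → ‖p x - p y‖ = 1) : G.Colorable B := by
  classical
  obtain ⟨M, hM⟩ := SimpleGraph.tutte.2 (no_violator p hp B t hcard hB)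
  rw [SimpleGraph.Subgraph.isPerfectMatching_iff] at hM
  choose f hf hf' using hM
  have hff : ∀ x, f (f x) = x := by
    intro x
    exact (hf' (f x) x (hf x).symm).symm
  have hfne : ∀ x, f x ≠ x := by
    intro x h
    have := (hf x).ne
    exact this h.symm
  have hcardW : Fintype.card (V ⊕ Fin t) = 2 * B := by
    rw [Fintype.card_sum, Fintype.card_fin, hcard]
  obtain ⟨e⟩ : Nonempty ((V ⊕ Fin t) ≃ Fin (2 * B)) := ⟨Fintype.equivFinOfCardEq hcardW⟩
  obtain ⟨A, hA⟩ : ∃ A : Finset (V ⊕ Fin t), A = univ.filter fun w => e w < e (f w) := ⟨_, rfl⟩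
  have hAc : Aᶜ = A.image f := by
    ext w
    rw [Finset.mem_compl, hA, Finset.mem_filter, Finset.mem_image]
    simp only [Finset.mem_univ, true_and, Finset.mem_filter, not_lt]
    constructor
    · intro h
      refine ⟨f w, ?_, hff w⟩
      rw [hff w]
      refine lt_of_le_of_ne h ?_
      intro h'
      exact hfne w (e.injective h')
    · rintro ⟨x, hx, rfl⟩
      rw [hff x]
      exact hx.le
  have hAcard : A.card = B := by
    have h1 : (A.image f).card = A.card :=
      Finset.card_image_of_injective _ (Function.LeftInverse.injective hff)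
    have h2 := Finset.card_add_card_compl A
    rw [hAc, h1, hcardW] at h2
    omega
  obtain ⟨c, hc⟩ : ∃ c : V → (V ⊕ Fin t), c = fun v =>
    if e (Sum.inl v) < e (f (Sum.inl v)) then Sum.inl v else f (Sum.inl v) := ⟨_, rfl⟩
  have hcA : ∀ v, c v ∈ A := by
    intro v
    rw [hc, hA, Finset.mem_filter]
    refine ⟨Finset.mem_univ _, ?_⟩
    simp only
    split_ifs with h
    · exact h
    · rw [hff]
      push Not at h
      refine lt_of_le_of_ne h ?_
      intro h'
      exact hfne _ (e.injective h')
  have hcol : G.Colorable (Fintype.card A) := by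
    refine SimpleGraph.Coloring.colorable (SimpleGraph.Coloring.mk (fun v => (⟨c v, hcA v⟩ : A)) ?_)
    intro v w hvw hcv
    have hcv' : c v = c w := congrArg Subtype.val hcv
    have hne : v ≠ w := hvw.ne
    have hd := hG v w hvw
    have key : f (Sum.inl v) = Sum.inl w := by
      rw [hc] at hcv'
      simp only at hcv'
      split_ifs at hcv' with h1 h2 h2
      · exact absurd (Sum.inl_injective hcv') hne
      · rw [hcv', hff]
      · exact hcv'
      · have := congrArg f hcv'
        rw [hff, hff] at this
        exact absurd (Sum.inl_injective this) hne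
    have hadj := (hf (Sum.inl v)).adj_sub
    rw [key, joined_adj] at hadj
    exact hadj.2 v w rfl rfl hd
  rwa [Fintype.card_coe, hAcard] at hcol

/-- **Main theorem, scaled form.** -/
theorem main_scaled [FiniteDimensional ℝ E] {V : Type*} [Fintype V] [DecidableEq V] (p : V → E)
    (hp : ∀ i j, ‖p i - p j‖ ≤ 1)
    (G : SimpleGraph V) (hG : ∀ x y, G.Adj x y → ‖p x - p y‖ = 1) :
    G.Colorable (Module.finrank ℝ E + 1 + ⌊tri p / 2⌋₊) ∧
      Fintype.card V ≤ 2 * (Module.finrank ℝ E + 1 + ⌊tri p / 2⌋₊) := by
  classical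
  obtain ⟨B, hBdef⟩ : ∃ B : ℕ, B = Module.finrank ℝ E + 1 + ⌊tri p / 2⌋₊ := ⟨_, rfl⟩
  rw [← hBdef]
  have hfl := Nat.lt_floor_add_one (tri p / 2)
  have hBr : (B : ℝ) = Module.finrank ℝ E + 1 + (⌊tri p / 2⌋₊ : ℝ) := by
    rw [hBdef]; push_cast; ring
  have hB : 2 * ((Module.finrank ℝ E : ℝ) + 1) + tri p < 2 * (B : ℝ) + 2 := by
    rw [hBr]; linarith
  have hn : Fintype.card V ≤ 2 * B := by
    have h1 := count_lemma p hp (fun _ => ()) (fun i j h => absurd rfl h)
    have h2 : ((univ.filter fun c : Unit => Odd (Fintype.card {i : V // () = c})).card) =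
        if Odd (Fintype.card V) then 1 else 0 := by
      have h3 : ∀ c : Unit, Fintype.card {i : V // () = c} = Fintype.card V := by
        intro c
        rw [Fintype.card_subtype]
        simp
      simp only [h3]
      split_ifs with h
      · simp [h]
      · simp [h]
    rw [h2] at h1
    by_contra hcon
    push Not at hcon
    have h4 : 2 * B + 1 ≤ Fintype.card V := hcon
    by_cases h5 : Odd (Fintype.card V)
    · rw [if_pos h5] at h1
      have h6 : (2 * (B : ℝ) + 1) ≤ Fintype.card V := by exact_mod_cast h4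
      push_cast at h1
      linarith
    · have h7 : 2 * B + 2 ≤ Fintype.card V := by
        rcases Nat.lt_or_ge (2 * B + 1) (Fintype.card V) with h | h
        · exact h
        · exfalso
          apply h5
          rw [le_antisymm h h4]
          exact odd_two_mul_add_one B
      rw [if_neg h5] at h1
      have h6 : (2 * (B : ℝ) + 2) ≤ Fintype.card V := by exact_mod_cast h7
      push_cast at h1
      linarith
  exact ⟨colour p hp B (2 * B - Fintype.card V) (by omega) hB G hG, hn⟩

end Pool.Agent.Lib.MP_892329_co
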