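import Mathlib

/-!
# Counting the eigenvalues at most `-1` of a nonnegative matrix of trace zero
-/

set_option autoImplicit false

namespace Pool.Agent.Lib.MP_892329_co

open Finset Matrix

/-- the inequality for the eigenvalues, with the test function `x ^ 3 - 3 * x` -/
theorem eig_count {ι : Type*} [Fintype ι] (a : ι → ℝ) (T : ℝ)
    (h1 : ∑ i, a i = 0) (h3 : ∑ i, a i ^ 3 = T)
    (huniq : ∀ i j, a i < -1 → a j < -1 → i = j)
    (hperron : ∀ i, ∃ j, -(a i) ≤ a j) :
    2 * ((univ.filter fun i => a i ≤ -1).card : ℝ) ≤ Fintype.card ι + T / 2 := by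
  classical
  obtain ⟨g, hg⟩ : ∃ g : ℝ → ℝ, g = fun x => x ^ 3 - 3 * x := ⟨_, rfl⟩
  obtain ⟨c, hc⟩ : ∃ c : ι → ℝ, c = fun i =>
    2 * (if a i ≤ -1 then 1 else 0) - 2 * (if 0 < a i then 1 else 0) := ⟨_, rfl⟩
  have hsum : ∑ i, g (a i) = T := by
    rw [hg]
    simp only [Finset.sum_sub_distrib, ← Finset.mul_sum, h1, h3]
    ring
  -- pointwise bound
  have hpt : ∀ i, -1 ≤ a i → 0 ≤ g (a i) - c i := by
    intro i hi
    rw [hg, hc]
    simp only
    by_cases h0 : 0 < a i
    · rw [if_neg (by linarith), if_pos h0]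
      nlinarith [mul_nonneg (sq_nonneg (a i - 1)) (by linarith : 0 ≤ a i + 2)]
    · push Not at h0
      by_cases h2 : a i ≤ -1
      · have h3 : a i = -1 := le_antisymm h2 hi
        rw [if_pos h2, if_neg (by linarith), h3]
        norm_num
      · push Not at h2
        rw [if_neg (by linarith), if_neg (by linarith)]
        nlinarith [mul_nonneg (by linarith : 0 ≤ -(a i)) (by nlinarith : 0 ≤ 3 - a i ^ 2)]
  have hmain : 0 ≤ ∑ i, (g (a i) - c i) := by
    by_cases hex : ∃ i0, a i0 < -1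
    · obtain ⟨i0, hi0⟩ := hex
      obtain ⟨j0, hj0⟩ := hperron i0
      have hne : j0 ≠ i0 := by
        rintro rfl
        linarith
      have e1 : ∑ i, (g (a i) - c i) = (g (a i0) - c i0) + ((g (a j0) - c j0) +
          ∑ i ∈ (univ.erase i0).erase j0, (g (a i) - c i)) := by
        rw [Finset.add_sum_erase _ (fun i => g (a i) - c i)
            (Finset.mem_erase.2 ⟨hne, Finset.mem_univ j0⟩),
          Finset.add_sum_erase _ (fun i => g (a i) - c i) (Finset.mem_univ i0)]
      have e2 : 0 ≤ ∑ i ∈ (univ.erase i0).erase j0, (g (a i) - c i) := by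
        apply Finset.sum_nonneg
        intro i hi
        apply hpt
        by_contra hcon
        push Not at hcon
        have := huniq i i0 hcon hi0
        rw [Finset.mem_erase, Finset.mem_erase] at hi
        exact hi.2.1 this
      have e3 : 0 ≤ (g (a i0) - c i0) + (g (a j0) - c j0) := by
        rw [hg, hc]
        simp only
        rw [if_pos hi0.le, if_neg (by linarith), if_neg (by linarith), if_pos (by linarith)]
        nlinarith [mul_nonneg (by linarith : 0 ≤ a i0 + a j0)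
          (by nlinarith [sq_nonneg (a i0 + a j0), sq_nonneg (a i0 - a j0)] :
            0 ≤ a i0 ^ 2 - a i0 * a j0 + a j0 ^ 2 - 3)]
      rw [e1]
      linarith
    · push Not at hex
      exact Finset.sum_nonneg fun i _ => hpt i (hex i)
  rw [Finset.sum_sub_distrib, hsum] at hmain
  have hcsum : ∑ i, c i = 2 * ((univ.filter fun i => a i ≤ -1).card : ℝ) -
      2 * ((univ.filter fun i => 0 < a i).card : ℝ) := by
    rw [hc]
    simp only [Finset.sum_sub_distrib, ← Finset.mul_sum, Finset.sum_boole]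
  have hcard : ((univ.filter fun i => a i ≤ -1).card : ℝ) +
      ((univ.filter fun i => 0 < a i).card : ℝ) ≤ Fintype.card ι := by
    have hdisj : Disjoint (univ.filter fun i => a i ≤ -1) (univ.filter fun i => 0 < a i) := by
      rw [Finset.disjoint_filter]
      intro i _ h h'
      linarith
    rw [← Nat.cast_add, ← Finset.card_union_of_disjoint hdisj]
    exact_mod_cast Finset.card_le_univ _
  linarith

/-- spectral theorem for real symmetric matrices in the form used below -/
theorem exists_diag {ι : Type*} [Fintype ι] [DecidableEq ι] (X : Matrix ι ι ℝ)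
    (hX : X.IsHermitian) : ∃ (a : ι → ℝ) (U : Matrix ι ι ℝ), U * Uᵀ = 1 ∧ Uᵀ * U = 1 ∧
      X = U * diagonal a * Uᵀ := by
  refine ⟨hX.eigenvalues, (hX.eigenvectorUnitary : Matrix ι ι ℝ), ?_, ?_, ?_⟩
  · have := Unitary.mul_star_self_of_mem hX.eigenvectorUnitary.2
    rwa [star_eq_conjTranspose, conjTranspose_eq_transpose_of_trivial] at this
  · have := Unitary.star_mul_self_of_mem hX.eigenvectorUnitary.2
    rwa [star_eq_conjTranspose, conjTranspose_eq_transpose_of_trivial] at this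
  · have := hX.spectral_theorem
    rw [Unitary.conjStarAlgAut_apply] at this
    rw [← conjTranspose_eq_transpose_of_trivial, ← star_eq_conjTranspose]
    exact this

section
variable {ι : Type*} [Fintype ι] [DecidableEq ι] {X U : Matrix ι ι ℝ} {a : ι → ℝ}

theorem sum_sq_coord (hU : U * Uᵀ = 1) (z : ι → ℝ) :
    ∑ i, (Uᵀ *ᵥ z) i ^ 2 = ∑ i, z i ^ 2 := by
  have h : (Uᵀ *ᵥ z) ⬝ᵥ (Uᵀ *ᵥ z) = z ⬝ᵥ z := by
    rw [Matrix.dotProduct_mulVec, Matrix.vecMul_transpose, Matrix.mulVec_mulVec, hU,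
      Matrix.one_mulVec]
  simpa [dotProduct, sq] using h

theorem form_coord (hX : X = U * diagonal a * Uᵀ) (z : ι → ℝ) :
    z ⬝ᵥ X *ᵥ z = ∑ i, a i * (Uᵀ *ᵥ z) i ^ 2 := by
  have h : z ⬝ᵥ X *ᵥ z = (Uᵀ *ᵥ z) ⬝ᵥ (diagonal a *ᵥ (Uᵀ *ᵥ z)) := by
    rw [hX, ← Matrix.mulVec_mulVec, ← Matrix.mulVec_mulVec, Matrix.dotProduct_mulVec,
      ← Matrix.mulVec_transpose]
  rw [h]
  simp only [dotProduct, Matrix.mulVec_diagonal]
  refine Finset.sum_congr rfl fun i _ => ?_
  ring

theorem coord_comb (hU : Uᵀ * U = 1) (w : ι → ℝ) : Uᵀ *ᵥ (U *ᵥ w) = w := by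
  rw [Matrix.mulVec_mulVec, hU, Matrix.one_mulVec]

end

/-- **Spectral lemma.** -/
theorem spec {ι : Type*} [Fintype ι] [DecidableEq ι] (X U : Matrix ι ι ℝ) (a : ι → ℝ)
    (hU : U * Uᵀ = 1) (hU' : Uᵀ * U = 1) (hX : X = U * diagonal a * Uᵀ)
    (hnn : ∀ i j, 0 ≤ X i j) (hdiag : ∀ i, X i i = 0)
    (hform : ∀ z : ι → ℝ, ∑ i, z i = 0 → 0 ≤ ∑ i, z i ^ 2 + z ⬝ᵥ X *ᵥ z) :
    2 * ((univ.filter fun i => a i ≤ -1).card : ℝ) ≤ Fintype.card ι +
      (∑ i, ∑ j, ∑ k, X i j * X j k * X k i) / 2 := by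
  apply eig_count
  · have h1 : X.trace = ∑ i, a i := by
      rw [hX, Matrix.trace_mul_comm, ← mul_assoc, hU', one_mul, Matrix.trace_diagonal]
    rw [← h1]
    simp [Matrix.trace, hdiag]
  · have h1 : (X * X * X).trace = ∑ i, a i ^ 3 := by
      have h2 : X * X * X = U * (diagonal a * diagonal a * diagonal a) * Uᵀ := by
        calc X * X * X = (U * diagonal a * Uᵀ) * (U * diagonal a * Uᵀ) * (U * diagonal a * Uᵀ) := by
              rw [← hX]
          _ = U * diagonal a * (Uᵀ * U) * diagonal a * (Uᵀ * U) * diagonal a * Uᵀ := by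
              simp only [mul_assoc]
          _ = _ := by rw [hU']; simp only [mul_one, mul_assoc]
      rw [h2, Matrix.trace_mul_comm, ← mul_assoc, hU', one_mul, Matrix.diagonal_mul_diagonal,
        Matrix.diagonal_mul_diagonal, Matrix.trace_diagonal]
      refine Finset.sum_congr rfl fun i _ => ?_
      ring
    rw [← h1]
    simp only [Matrix.trace, Matrix.diag_apply, Matrix.mul_apply, Finset.sum_mul]
    refine Finset.sum_congr rfl fun i _ => ?_
    rw [Finset.sum_comm]
  · -- at most one eigenvalue `< -1`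
    intro i j hi hj
    by_contra hij
    obtain ⟨α, β, hne, hαβ⟩ : ∃ α β : ℝ, (α ≠ 0 ∨ β ≠ 0) ∧
        α * (∑ k, U k i) + β * (∑ k, U k j) = 0 := by
      by_cases h0 : ∑ k, U k i = 0
      · exact ⟨1, 0, Or.inl one_ne_zero, by rw [h0]; ring⟩
      · exact ⟨∑ k, U k j, -∑ k, U k i, Or.inr (neg_ne_zero.2 h0), by ring⟩
    obtain ⟨w, hw⟩ : ∃ w : ι → ℝ, w = Pi.single i α + Pi.single j β := ⟨_, rfl⟩
    have hwi : w i = α := by rw [hw]; simp [hij]
    have hwj : w j = β := by rw [hw]; simp [Ne.symm hij]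
    have hwk : ∀ k, k ≠ i → k ≠ j → w k = 0 := by
      intro k hki hkj
      rw [hw]; simp [hki, hkj]
    have hsum : ∀ f : ι → ℝ, ∑ k, f k * w k ^ 2 = f i * α ^ 2 + f j * β ^ 2 := by
      intro f
      rw [← Finset.add_sum_erase _ _ (Finset.mem_univ i),
        ← Finset.add_sum_erase _ _ (Finset.mem_erase.2 ⟨Ne.symm hij, Finset.mem_univ j⟩),
        Finset.sum_eq_zero, hwi, hwj, add_zero]
      intro k hk
      rw [Finset.mem_erase, Finset.mem_erase] at hk
      rw [hwk k hk.2.1 hk.1]; ring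
    have hz := hform (U *ᵥ w) (by
      have : ∑ k, (U *ᵥ w) k = ∑ l, (∑ k, U k l) * w l := by
        simp only [Matrix.mulVec, dotProduct]
        rw [Finset.sum_comm]
        simp only [Finset.sum_mul]
      rw [this, ← Finset.add_sum_erase _ (fun l => (∑ k, U k l) * w l) (Finset.mem_univ i),
        ← Finset.add_sum_erase _ (fun l => (∑ k, U k l) * w l)
          (Finset.mem_erase.2 ⟨Ne.symm hij, Finset.mem_univ j⟩),
        hwi, hwj]
      have h0 : ∑ l ∈ (univ.erase i).erase j, (∑ k, U k l) * w l = 0 := by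
        apply Finset.sum_eq_zero
        intro k hk
        rw [Finset.mem_erase, Finset.mem_erase] at hk
        rw [hwk k hk.2.1 hk.1]; ring
      rw [h0]
      linarith)
    rw [← sum_sq_coord hU, form_coord hX, coord_comb hU'] at hz
    have e1 : ∑ k, w k ^ 2 = α ^ 2 + β ^ 2 := by
      have := hsum (fun _ => 1)
      simpa using this
    rw [e1, hsum a] at hz
    rcases hne with h | h
    · have : 0 < α ^ 2 := by positivity
      nlinarith [sq_nonneg β]
    · have : 0 < β ^ 2 := by positivity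
      nlinarith [sq_nonneg α]
  · -- Perron
    intro i
    by_contra hcon
    push Not at hcon
    obtain ⟨u, hu⟩ : ∃ u : ι → ℝ, u = U *ᵥ (Pi.single i 1) := ⟨_, rfl⟩
    have hcu : Uᵀ *ᵥ u = Pi.single i 1 := by rw [hu]; exact coord_comb hU' _
    have hu2 : ∑ k, u k ^ 2 = 1 := by
      rw [← sum_sq_coord hU, hcu]
      simp [Pi.single_apply]
    have huX : u ⬝ᵥ X *ᵥ u = a i := by
      rw [form_coord hX, hcu]
      simp [Pi.single_apply]
    obtain ⟨v, hv⟩ : ∃ v : ι → ℝ, v = fun k => |u k| := ⟨_, rfl⟩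
    have hv2 : ∑ k, v k ^ 2 = 1 := by
      rw [← hu2, hv]
      exact Finset.sum_congr rfl fun k _ => sq_abs _
    have hvX : -(a i) ≤ v ⬝ᵥ X *ᵥ v := by
      rw [← huX, hv]
      simp only [dotProduct, Matrix.mulVec, Finset.mul_sum, ← Finset.sum_neg_distrib]
      refine Finset.sum_le_sum fun k _ => Finset.sum_le_sum fun l _ => ?_
      have h1 : -(u k * (X k l * u l)) ≤ |u k * (X k l * u l)| := neg_le_abs _
      rw [abs_mul, abs_mul, abs_of_nonneg (hnn k l)] at h1
      exact h1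
    rw [form_coord hX] at hvX
    have hw2 : ∑ k, (Uᵀ *ᵥ v) k ^ 2 = 1 := by rw [sum_sq_coord hU, hv2]
    have h3 : ∑ k, a k * (Uᵀ *ᵥ v) k ^ 2 < ∑ k, -(a i) * (Uᵀ *ᵥ v) k ^ 2 := by
      apply Finset.sum_lt_sum
      · intro k _
        exact mul_le_mul_of_nonneg_right (hcon k).le (sq_nonneg _)
      · by_contra hall
        push Not at hall
        have h4 : ∀ k, (Uᵀ *ᵥ v) k ^ 2 = 0 := by
          intro k
          have h5 := hall k (Finset.mem_univ k)
          have h6 := hcon k
          have h7 := sq_nonneg ((Uᵀ *ᵥ v) k)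
          by_contra h8
          have h9 : 0 < (Uᵀ *ᵥ v) k ^ 2 := lt_of_le_of_ne h7 (Ne.symm h8)
          have := mul_lt_mul_of_pos_right h6 h9
          linarith
        rw [Finset.sum_eq_zero fun k _ => h4 k] at hw2
        exact zero_ne_one hw2
    rw [← Finset.mul_sum, hw2] at h3
    linarith

end Pool.Agent.Lib.MP_892329_co
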